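import Pool.Agent.Helper22.G4.Code

/-! # G4-F4 -/

set_option linter.unusedSectionVars false
set_option linter.unusedVariables false

namespace Pool.Agent.Helper12.G4

open Pool.Agent.Helper22.G4

section

variable {α φ : Type} [DecidableEq α] [DecidableEq φ] {D : Data α φ}

theorem padjB_iff (a b : α) : D.padjB a b = true ↔ D.padj a b := by
  unfold Data.padjB Data.padj
  simp only [Bool.and_eq_true, Bool.not_eq_true', decide_eq_false_iff_not, List.all_eq_true,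
    Bool.or_eq_true, decide_eq_true_eq, List.any_eq_true, ne_eq]
  constructor
  · rintro ⟨h1, h2⟩
    refine ⟨h1, fun t ht h3 h4 => ?_⟩
    rcases h2 t ht with h | h | ⟨f, hf, h5, h6, h7⟩
    · exact absurd h h3
    · exact absurd h h4
    · exact ⟨f, hf, h5, h6, by simpa using h7⟩
  · rintro ⟨h1, h2⟩
    refine ⟨h1, fun t ht => ?_⟩
    by_cases h3 : t = a
    · exact Or.inl h3
    by_cases h4 : t = b
    · exact Or.inr (Or.inl h4)
    obtain ⟨f, hf, h5, h6, h7⟩ := h2 t ht h3 h4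
    exact Or.inr (Or.inr ⟨f, hf, h5, h6, by simpa using h7⟩)

theorem padj_symm {a b : α} (h : D.padj a b) : D.padj b a := by
  refine ⟨h.1.symm, fun t ht h1 h2 => ?_⟩
  obtain ⟨f, hf, h3, h4, h5⟩ := h.2 t ht h2 h1
  exact ⟨f, hf, h4, h3, h5⟩

/-- all edges before the degree-four vertices are added -/
def EE (D : Data α φ) : List (W α φ × W α φ) := D.edges1 ++ (D.edges2 ++ (D.edges3 ++ D.edges4))

theorem ee_vv (a b : α) : ((W.v a, W.v b) : W α φ × W α φ) ∈ EE D ↔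
    a ∈ D.verts ∧ b ∈ D.verts ∧ D.padj a b := by
  simp [EE, Data.edges1, Data.edges2, Data.edges3, Data.edges4, W.v, W.x, W.p, W.q, padjB_iff]

theorem ee_vx (a : α) (f : φ) : ((W.v a, W.x f) : W α φ × W α φ) ∉ EE D := by
  simp [EE, Data.edges1, Data.edges2, Data.edges3, Data.edges4, W.v, W.x, W.p, W.q]

theorem ee_xv (a : α) (f : φ) : ((W.x f, W.v a) : W α φ × W α φ) ∈ EE D ↔
    f ∈ D.fcodes ∧ a ∈ D.verts ∧ D.mem f a := by
  simp [EE, Data.edges1, Data.edges2, Data.edges3, Data.edges4, W.v, W.x, W.p, W.q]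

theorem ee_vp (a : α) (R : Flat α φ) : ((W.v a, W.p R) : W α φ × W α φ) ∉ EE D := by
  simp [EE, Data.edges1, Data.edges2, Data.edges3, Data.edges4, W.v, W.x, W.p, W.q]

theorem ee_pv (a : α) (R : Flat α φ) : ((W.p R, W.v a) : W α φ × W α φ) ∈ EE D ↔
    R ∈ D.flats ∧ a ∈ R.1 := by
  simp [EE, Data.edges1, Data.edges2, Data.edges3, Data.edges4, W.v, W.x, W.p, W.q]

theorem ee_xp (f : φ) (R : Flat α φ) : ((W.x f, W.p R) : W α φ × W α φ) ∉ EE D := by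
  simp [EE, Data.edges1, Data.edges2, Data.edges3, Data.edges4, W.v, W.x, W.p, W.q]

theorem ee_px (f : φ) (R : Flat α φ) : ((W.p R, W.x f) : W α φ × W α φ) ∈ EE D ↔
    R ∈ D.flats ∧ f = R.2.1 := by
  simp [EE, Data.edges1, Data.edges2, Data.edges3, Data.edges4, W.v, W.x, W.p, W.q]
  constructor
  · rintro ⟨a, b, h, rfl⟩
    exact ⟨h, rfl⟩
  · rintro ⟨h, rfl⟩
    exact ⟨_, _, h, rfl⟩

theorem ee_vq (a : α) (R : Flat α φ) : ((W.v a, W.q R) : W α φ × W α φ) ∉ EE D := by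
  simp [EE, Data.edges1, Data.edges2, Data.edges3, Data.edges4, W.v, W.x, W.p, W.q]

theorem ee_qv (a : α) (R : Flat α φ) : ((W.q R, W.v a) : W α φ × W α φ) ∈ EE D ↔
    R ∈ D.flats ∧ (a ∈ R.1 ∨ ∃ f ∈ D.fcodes, D.eIn R f ∧ ∃ g ∈ D.fcodes, f ≠ g ∧ D.eIn R g ∧
      a ∈ D.verts ∧ D.mem f a ∧ D.mem g a) := by
  simp [EE, Data.edges1, Data.edges2, Data.edges3, Data.edges4, W.v, W.x, W.p, W.q]
  constructor
  · rintro ⟨a1, a2, b, h, ⟨h1, rfl⟩ | ⟨f, ⟨h1, h2⟩, g, ⟨h3, h4, h5⟩, h6, rfl⟩⟩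
    · exact ⟨h, Or.inl h1⟩
    · exact ⟨h, Or.inr ⟨f, h1, h2, g, h3, h4, h5, h6⟩⟩
  · rintro ⟨h, h1 | ⟨f, h1, h2, g, h3, h4, h5, h6⟩⟩
    · exact ⟨_, _, _, h, Or.inl ⟨h1, rfl⟩⟩
    · exact ⟨_, _, _, h, Or.inr ⟨f, ⟨h1, h2⟩, g, ⟨h3, h4, h5⟩, h6, rfl⟩⟩

theorem ee_xq (f : φ) (R : Flat α φ) : ((W.x f, W.q R) : W α φ × W α φ) ∉ EE D := by
  simp [EE, Data.edges1, Data.edges2, Data.edges3, Data.edges4, W.v, W.x, W.p, W.q]

theorem ee_qx (f : φ) (R : Flat α φ) : ((W.q R, W.x f) : W α φ × W α φ) ∈ EE D ↔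
    R ∈ D.flats ∧ f ∈ D.fcodes ∧ D.eIn R f := by
  simp [EE, Data.edges1, Data.edges2, Data.edges3, Data.edges4, W.v, W.x, W.p, W.q]

theorem ee_pq (R S : Flat α φ) : ((W.p R, W.q S) : W α φ × W α φ) ∉ EE D := by
  simp [EE, Data.edges1, Data.edges2, Data.edges3, Data.edges4, W.v, W.x, W.p, W.q]

theorem ee_qp (R S : Flat α φ) : ((W.q R, W.p S) : W α φ × W α φ) ∈ EE D ↔
    R ∈ D.flats ∧ S = R := by
  simp [EE, Data.edges1, Data.edges2, Data.edges3, Data.edges4, W.v, W.x, W.p, W.q]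
  constructor
  · rintro ⟨h, rfl⟩
    exact ⟨h, rfl⟩
  · rintro ⟨h, rfl⟩
    exact ⟨h, rfl⟩

theorem ee_xx (f g : φ) : ((W.x f, W.x g) : W α φ × W α φ) ∉ EE D := by
  simp [EE, Data.edges1, Data.edges2, Data.edges3, Data.edges4, W.v, W.x, W.p, W.q]

theorem ee_pp (R S : Flat α φ) : ((W.p R, W.p S) : W α φ × W α φ) ∉ EE D := by
  simp [EE, Data.edges1, Data.edges2, Data.edges3, Data.edges4, W.v, W.x, W.p, W.q]

theorem ee_qq (R S : Flat α φ) : ((W.q R, W.q S) : W α φ × W α φ) ∉ EE D := by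
  simp [EE, Data.edges1, Data.edges2, Data.edges3, Data.edges4, W.v, W.x, W.p, W.q]

theorem mem_allW (w : W α φ) : w ∈ D.allW ↔ (∃ a ∈ D.verts, w = W.v a) ∨
    (∃ f ∈ D.fcodes, w = W.x f) ∨ (∃ R ∈ D.flats, w = W.p R) ∨ ∃ R ∈ D.flats, w = W.q R := by
  unfold Data.allW
  simp only [List.mem_append, List.mem_map]
  constructor
  · rintro (⟨a, h, rfl⟩ | ⟨a, h, rfl⟩ | ⟨a, h, rfl⟩ | ⟨a, h, rfl⟩)
    · exact Or.inl ⟨a, h, rfl⟩
    · exact Or.inr (Or.inl ⟨a, h, rfl⟩)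
    · exact Or.inr (Or.inr (Or.inl ⟨a, h, rfl⟩))
    · exact Or.inr (Or.inr (Or.inr ⟨a, h, rfl⟩))
  · rintro (⟨a, h, rfl⟩ | ⟨a, h, rfl⟩ | ⟨a, h, rfl⟩ | ⟨a, h, rfl⟩)
    · exact Or.inl ⟨a, h, rfl⟩
    · exact Or.inr (Or.inl ⟨a, h, rfl⟩)
    · exact Or.inr (Or.inr (Or.inl ⟨a, h, rfl⟩))
    · exact Or.inr (Or.inr (Or.inr ⟨a, h, rfl⟩))

theorem adjW_iff (x y : W α φ) (hx : x ∈ D.allW) (hy : y ∈ D.allW) :
    D.adjW x y ↔ (x, y) ∈ EE D ∨ (y, x) ∈ EE D := by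
  rw [mem_allW] at hx hy
  rcases hx with ⟨a, ha, rfl⟩ | ⟨f, hf, rfl⟩ | ⟨R, hR, rfl⟩ | ⟨R, hR, rfl⟩
  · rcases hy with ⟨b, hb, rfl⟩ | ⟨g, hg, rfl⟩ | ⟨S, hS, rfl⟩ | ⟨S, hS, rfl⟩
    · rw [ee_vv, ee_vv]
      show D.padj a b ↔ _
      constructor
      · exact fun h => Or.inl ⟨ha, hb, h⟩
      · rintro (⟨_, _, h⟩ | ⟨_, _, h⟩)
        · exact h
        · exact padj_symm h
    · rw [ee_xv]
      show D.mem g a ↔ _
      exact ⟨fun h => Or.inr ⟨hg, ha, h⟩, fun h => (h.resolve_left (ee_vx a g)).2.2⟩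
    · rw [ee_pv]
      show a ∈ S.1 ↔ _
      exact ⟨fun h => Or.inr ⟨hS, h⟩, fun h => (h.resolve_left (ee_vp a S)).2⟩
    · rw [ee_qv]
      show D.qadj S a ↔ _
      constructor
      · rintro (h | ⟨f, hf, g, hg, h1, h2, h3, h4, h5⟩)
        · exact Or.inr ⟨hS, Or.inl h⟩
        · exact Or.inr ⟨hS, Or.inr ⟨f, hf, h2, g, hg, h1, h3, ha, h4, h5⟩⟩
      · intro h
        rcases (h.resolve_left (ee_vq a S)).2 with h | ⟨f, hf, h2, g, hg, h1, h3, _, h4, h5⟩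
        · exact Or.inl h
        · exact Or.inr ⟨f, hf, g, hg, h1, h2, h3, h4, h5⟩
  · rcases hy with ⟨b, hb, rfl⟩ | ⟨g, hg, rfl⟩ | ⟨S, hS, rfl⟩ | ⟨S, hS, rfl⟩
    · rw [ee_xv]
      show D.mem f b ↔ _
      exact ⟨fun h => Or.inl ⟨hf, hb, h⟩, fun h => (h.resolve_right (ee_vx b f)).2.2⟩
    · show False ↔ _
      exact ⟨fun h => h.elim, fun h => h.elim (ee_xx f g) (ee_xx g f)⟩
    · rw [ee_px]
      show f = S.2.1 ↔ _
      exact ⟨fun h => Or.inr ⟨hS, h⟩, fun h => (h.resolve_left (ee_xp f S)).2⟩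
    · rw [ee_qx]
      show D.eIn S f ↔ _
      exact ⟨fun h => Or.inr ⟨hS, hf, h⟩, fun h => (h.resolve_left (ee_xq f S)).2.2⟩
  · rcases hy with ⟨b, hb, rfl⟩ | ⟨g, hg, rfl⟩ | ⟨S, hS, rfl⟩ | ⟨S, hS, rfl⟩
    · rw [ee_pv]
      show b ∈ R.1 ↔ _
      exact ⟨fun h => Or.inl ⟨hR, h⟩, fun h => (h.resolve_right (ee_vp b R)).2⟩
    · rw [ee_px]
      show g = R.2.1 ↔ _
      exact ⟨fun h => Or.inl ⟨hR, h⟩, fun h => (h.resolve_right (ee_xp g R)).2⟩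
    · show False ↔ _
      exact ⟨fun h => h.elim, fun h => h.elim (ee_pp R S) (ee_pp S R)⟩
    · rw [ee_qp]
      show R = S ↔ _
      exact ⟨fun h => Or.inr ⟨hS, h⟩, fun h => (h.resolve_left (ee_pq R S)).2⟩
  · rcases hy with ⟨b, hb, rfl⟩ | ⟨g, hg, rfl⟩ | ⟨S, hS, rfl⟩ | ⟨S, hS, rfl⟩
    · rw [ee_qv]
      show D.qadj R b ↔ _
      constructor
      · rintro (h | ⟨f, hf, g, hg, h1, h2, h3, h4, h5⟩)
        · exact Or.inl ⟨hR, Or.inl h⟩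
        · exact Or.inl ⟨hR, Or.inr ⟨f, hf, h2, g, hg, h1, h3, hb, h4, h5⟩⟩
      · intro h
        rcases (h.resolve_right (ee_vq b R)).2 with h | ⟨f, hf, h2, g, hg, h1, h3, _, h4, h5⟩
        · exact Or.inl h
        · exact Or.inr ⟨f, hf, g, hg, h1, h2, h3, h4, h5⟩
    · rw [ee_qx]
      show D.eIn R g ↔ _
      exact ⟨fun h => Or.inl ⟨hR, hg, h⟩, fun h => (h.resolve_right (ee_xq g R)).2.2⟩
    · rw [ee_qp]
      show S = R ↔ _
      exact ⟨fun h => Or.inl ⟨hR, h⟩, fun h => (h.resolve_right (ee_pq S R)).2⟩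
    · show False ↔ _
      exact ⟨fun h => h.elim, fun h => h.elim (ee_qq R S) (ee_qq S R)⟩

theorem mem_ll (a b : W α φ) : ((.inl a, .inl b) : X α φ × X α φ) ∈ D.edgesX ↔ (a, b) ∈ EE D := by
  simp [Data.edgesX, EE]

theorem mem_lr (a : W α φ) (T : List (W α φ)) :
    ((.inl a, .inr T) : X α φ × X α φ) ∉ D.edgesX := by
  simp [Data.edgesX]

theorem mem_rr (S T : List (W α φ)) : ((.inr S, .inr T) : X α φ × X α φ) ∉ D.edgesX := by
  simp [Data.edgesX]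

theorem mem_rl (a : W α φ) (T : List (W α φ)) (hT : T ∈ D.flats.flatMap Ts) :
    ((.inr T, .inl a) : X α φ × X α φ) ∈ D.edgesX ↔ a ∈ T := by
  unfold Data.edgesX
  rw [List.mem_append, List.mem_map, List.mem_flatMap]
  constructor
  · rintro (⟨e, _, he⟩ | ⟨T', hT', h⟩)
    · simp at he
    · rw [List.mem_map] at h
      obtain ⟨w, hw, he⟩ := h
      simp only [Prod.mk.injEq, Sum.inr.injEq, Sum.inl.injEq] at he
      rw [← he.1, ← he.2]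
      exact hw
  · intro h
    exact Or.inr ⟨T, hT, List.mem_map.2 ⟨a, h, rfl⟩⟩

/-- G4-F4 -/
theorem Data.mem_edgesX (hD : D.Good) : ∀ x ∈ D.allX, ∀ y ∈ D.allX, x ≠ y →
      (D.adjX x y ↔ (x, y) ∈ D.edgesX ∨ (y, x) ∈ D.edgesX) := by
  intro x hx y hy _
  unfold Data.allX at hx hy
  rw [List.mem_append, List.mem_map, List.mem_map] at hx hy
  rcases hx with ⟨a, ha, rfl⟩ | ⟨S, hS, rfl⟩
  · rcases hy with ⟨b, hb, rfl⟩ | ⟨T, hT, rfl⟩
    · rw [mem_ll, mem_ll]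
      exact adjW_iff a b ha hb
    · rw [mem_rl a T hT]
      show a ∈ T ↔ _
      exact ⟨fun h => Or.inr h, fun h => h.resolve_left (mem_lr a T)⟩
  · rcases hy with ⟨b, hb, rfl⟩ | ⟨T, hT, rfl⟩
    · rw [mem_rl b S hS]
      show b ∈ S ↔ _
      exact ⟨fun h => Or.inl h, fun h => h.resolve_right (mem_lr b S)⟩
    · show False ↔ _
      exact ⟨fun h => h.elim, fun h => h.elim (mem_rr S T) (mem_rr T S)⟩

end

end Pool.Agent.Helper12.G4
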